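import Mathlib

set_option autoImplicit false

namespace Pool.Agent.H761Z.PPM

open Function

variable {P : Type}

/-- the elements of `S` whose immediate successor for `Z` lies outside `S` -/
def bd (Z : P → ℤ) (S : Set P) : Set P :=
  {q | q ∈ S ∧ ∃ r, r ∉ S ∧ Z q < Z r ∧ ∀ u, Z q < Z u → Z r ≤ Z u}

lemma ncard_le_of_inj {B : Set P} {κ : P → ℤ} {lo hi : ℤ} (h1 : ∀ q ∈ B, κ q ∈ Set.Icc lo hi)
    (h2 : Set.InjOn κ B) : B.ncard ≤ (hi + 1 - lo).toNat := by
  have := Set.ncard_le_ncard_of_injOn κ h1 h2 (Set.finite_Icc lo hi)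
  rwa [← Finset.coe_Icc, Set.ncard_coe_finset, Int.card_Icc] at this

lemma bd_ncard_le [Finite P] (Z : P → ℤ) (hZ : Injective Z) (K : P → ℤ) (T G : P → ℕ)
    (M thin : P → Prop) (side : P → Bool) (g τ : ℕ) (S : Set P)
    (hS : ∀ p, p ∈ S ↔ G p < g ∨ (G p = g ∧ T p < τ)) (lo hi : ℤ) (hlh : lo < hi)
    (hK : ∀ p q, K p < K q → Z p < Z q)
    (hT : ∀ p q p' q', K p = K q → K p = K p' → K p = K q' → Z p < Z q → T p < T q →
      Z p' < Z q' → T p' < T q')
    (hM : ∀ p q r, K p = K q → K p = K r → M p → M r → Z p < Z q → Z q < Z r → M q)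
    (hMG : ∀ p q, K p = K q → M p → M q → G p = G q)
    (hthin : ∀ p q, K p = K q → thin p → thin q → side p = side q → p = q)
    (hG : ∀ p q, K p = K q → ¬ M p → ¬ M q → ¬ thin p → ¬ thin q → G p = G q)
    (hlo : ∀ p q, K p ≤ lo → K q ≤ lo → (p ∈ S ↔ q ∈ S))
    (hhi : ∀ p q, hi ≤ K p → hi ≤ K q → (p ∈ S ↔ q ∈ S)) :
    (bd Z S).ncard ≤ 8 * (hi + 1 - lo).toNat := by
  classical
  have hex : ∀ q, ∃ r, q ∈ bd Z S → r ∉ S ∧ Z q < Z r ∧ ∀ u, Z q < Z u → Z r ≤ Z u := by
    intro q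
    by_cases h : q ∈ bd Z S
    · obtain ⟨r, hr⟩ := h.2
      exact ⟨r, fun _ => hr⟩
    · exact ⟨q, fun h' => absurd h' h⟩
  choose r hr using hex
  let κ : P → ℤ := fun q => max lo (min hi (K q))
  have hκ : ∀ q, κ q ∈ Set.Icc lo hi := fun q => by
    simp only [κ, Set.mem_Icc]
    omega
  have hmono : ∀ p q, Z p ≤ Z q → κ p ≤ κ q := by
    intro p q h
    have : K p ≤ K q := by
      by_contra h'
      have := hK q p (by omega)
      omega
    simp only [κ]
    omega
  have hint : ∀ q ∈ bd Z S, ¬ κ q < κ (r q) → K q = K (r q) ∧ κ q = K q := by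
    intro q hq h
    obtain ⟨h1, h2, _⟩ := hr q hq
    have h3 := hmono q (r q) h2.le
    have h4 : ¬ (K q ≤ lo ∧ K (r q) ≤ lo) := fun h => h1 ((hlo _ _ h.1 h.2).1 hq.1)
    have h5 : ¬ (hi ≤ K q ∧ hi ≤ K (r q)) := fun h => h1 ((hhi _ _ h.1 h.2).1 hq.1)
    simp only [κ] at h h3 ⊢
    omega
  have hlt : ∀ q ∈ bd Z S, ∀ q' ∈ bd Z S, Z q < Z q' → Z (r q) < Z q' := by
    intro q hq q' hq' h
    obtain ⟨h1, _, h3⟩ := hr q hq
    refine lt_of_le_of_ne (h3 q' h) fun h4 => h1 ?_
    rw [hZ h4]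
    exact hq'.1
  have wl : ∀ (c : P → Prop), (∀ q ∈ bd Z S, ∀ q' ∈ bd Z S, c q → c q' → κ q = κ q' →
      ¬ Z q < Z q') → {q | q ∈ bd Z S ∧ c q}.ncard ≤ (hi + 1 - lo).toNat := by
    intro c hc
    refine ncard_le_of_inj (κ := κ) (fun q _ => hκ q) ?_
    intro q hq q' hq' h
    have k1 := hc q hq.1 q' hq'.1 hq.2 hq'.2 h
    have k2 := hc q' hq'.1 q hq.1 hq'.2 hq.2 h.symm
    exact hZ (by omega)
  have c0 := wl (fun q => κ q < κ (r q)) (by
    intro q hq q' hq' c c' e h
    have := hmono _ _ (hlt q hq q' hq' h).le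
    omega)
  have c1 := wl (fun q => ¬ κ q < κ (r q) ∧ G q = G (r q)) (by
    intro q hq q' hq' c c' e h
    obtain ⟨k1, k2⟩ := hint q hq c.1
    obtain ⟨k3, k4⟩ := hint q' hq' c'.1
    have k5 := (hS q).1 hq.1
    have k6 := mt (hS (r q)).2 (hr q hq).1
    have k7 := (hS q').1 hq'.1
    have k8 := mt (hS (r q')).2 (hr q' hq').1
    have k9 := c.2
    have k10 := c'.2
    have := hT q (r q) (r q) q' k1 k1 (by omega) (hr q hq).2.1 (by omega) (hlt q hq q' hq' h)
    omega)
  have c2 := wl (fun q => ¬ κ q < κ (r q) ∧ M q ∧ ¬ M (r q)) (by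
    intro q hq q' hq' c c' e h
    obtain ⟨k1, k2⟩ := hint q hq c.1
    obtain ⟨k3, k4⟩ := hint q' hq' c'.1
    exact c.2.2 (hM q (r q) q' k1 (by omega) c.2.1 c'.2.1 (hr q hq).2.1 (hlt q hq q' hq' h)))
  have c3 := wl (fun q => ¬ κ q < κ (r q) ∧ M (r q) ∧ ¬ M q) (by
    intro q hq q' hq' c c' e h
    obtain ⟨k1, k2⟩ := hint q hq c.1
    obtain ⟨k3, k4⟩ := hint q' hq' c'.1
    exact c'.2.2 (hM (r q) q' (r q') (by omega) (by omega) c.2.1 c'.2.1 (hlt q hq q' hq' h)
      (hr q' hq').2.1))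
  have c4 : ∀ b : Bool, _ := fun b => wl (fun q => ¬ κ q < κ (r q) ∧ thin q ∧ side q = b) (by
    intro q hq q' hq' c c' e h
    obtain ⟨k1, k2⟩ := hint q hq c.1
    obtain ⟨k3, k4⟩ := hint q' hq' c'.1
    have := hthin q q' (by omega) c.2.1 c'.2.1 (c.2.2.trans c'.2.2.symm)
    rw [this] at h
    omega)
  have c5 : ∀ b : Bool, _ := fun b =>
    wl (fun q => ¬ κ q < κ (r q) ∧ thin (r q) ∧ side (r q) = b) (by
    intro q hq q' hq' c c' e h
    obtain ⟨k1, k2⟩ := hint q hq c.1
    obtain ⟨k3, k4⟩ := hint q' hq' c'.1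
    have := hthin (r q) (r q') (by omega) c.2.1 c'.2.1 (c.2.2.trans c'.2.2.symm)
    have k5 := hlt q hq q' hq' h
    have k6 := (hr q' hq').2.1
    rw [this] at k5
    omega)
  have hsub : bd Z S ⊆ {q | q ∈ bd Z S ∧ κ q < κ (r q)} ∪
      {q | q ∈ bd Z S ∧ (¬ κ q < κ (r q) ∧ G q = G (r q))} ∪
      {q | q ∈ bd Z S ∧ (¬ κ q < κ (r q) ∧ M q ∧ ¬ M (r q))} ∪
      {q | q ∈ bd Z S ∧ (¬ κ q < κ (r q) ∧ M (r q) ∧ ¬ M q)} ∪
      {q | q ∈ bd Z S ∧ (¬ κ q < κ (r q) ∧ thin q ∧ side q = true)} ∪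
      {q | q ∈ bd Z S ∧ (¬ κ q < κ (r q) ∧ thin q ∧ side q = false)} ∪
      {q | q ∈ bd Z S ∧ (¬ κ q < κ (r q) ∧ thin (r q) ∧ side (r q) = true)} ∪
      {q | q ∈ bd Z S ∧ (¬ κ q < κ (r q) ∧ thin (r q) ∧ side (r q) = false)} := by
    intro q hq
    by_cases h0 : κ q < κ (r q)
    · exact .inl (.inl (.inl (.inl (.inl (.inl (.inl ⟨hq, h0⟩))))))
    obtain ⟨k1, -⟩ := hint q hq h0
    have k2 := hMG q (r q) k1
    have k3 := hG q (r q) k1
    by_cases h1 : G q = G (r q)
    · exact .inl (.inl (.inl (.inl (.inl (.inl (.inr ⟨hq, h0, h1⟩))))))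
    by_cases h2 : M q <;> by_cases h3 : M (r q)
    · exact absurd (k2 h2 h3) h1
    · exact .inl (.inl (.inl (.inl (.inl (.inr ⟨hq, h0, h2, h3⟩)))))
    · exact .inl (.inl (.inl (.inl (.inr ⟨hq, h0, h3, h2⟩))))
    by_cases h4 : thin q
    · cases hs : side q
      · exact .inl (.inl (.inr ⟨hq, h0, h4, hs⟩))
      · exact .inl (.inl (.inl (.inr ⟨hq, h0, h4, hs⟩)))
    by_cases h5 : thin (r q)
    · cases hs : side (r q)
      · exact .inr ⟨hq, h0, h5, hs⟩
      · exact .inl (.inr ⟨hq, h0, h5, hs⟩)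
    exact absurd (k3 h2 h3 h4 h5) h1
  refine (Set.ncard_le_ncard hsub (Set.toFinite _)).trans ?_
  have c4t := c4 true
  have c4f := c4 false
  have c5t := c5 true
  have c5f := c5 false
  refine (Set.ncard_union_le _ _).trans ?_
  refine (Nat.add_le_add_right (Set.ncard_union_le _ _) _).trans ?_
  refine (Nat.add_le_add_right (Nat.add_le_add_right (Set.ncard_union_le _ _) _) _).trans ?_
  refine (Nat.add_le_add_right (Nat.add_le_add_right (Nat.add_le_add_right
    (Set.ncard_union_le _ _) _) _) _).trans ?_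
  refine (Nat.add_le_add_right (Nat.add_le_add_right (Nat.add_le_add_right (Nat.add_le_add_right
    (Set.ncard_union_le _ _) _) _) _) _).trans ?_
  refine (Nat.add_le_add_right (Nat.add_le_add_right (Nat.add_le_add_right (Nat.add_le_add_right
    (Nat.add_le_add_right (Set.ncard_union_le _ _) _) _) _) _) _).trans ?_
  refine (Nat.add_le_add_right (Nat.add_le_add_right (Nat.add_le_add_right (Nat.add_le_add_right
    (Nat.add_le_add_right (Nat.add_le_add_right (Set.ncard_union_le _ _) _) _) _) _) _) _).trans ?_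
  omega

/-- the line of parity `b` through the cell `l` -/
def line (b l : ℕ) : ℕ := l + (l + b) % 2

lemma ar1 {b i j i' j' : ℕ} (hb : b < 2) (e1 : line b i = line b i') (e2 : line b j = line b j')
    (m1 : i % 2 ≠ j % 2) (m2 : i' % 2 ≠ j' % 2) :
    (i = i' ∧ j = j') ∨
      (line (1 - b) i < line (1 - b) i' ∧ line (1 - b) j' < line (1 - b) j) ∨
      (line (1 - b) i' < line (1 - b) i ∧ line (1 - b) j < line (1 - b) j') := by
  unfold line at *
  interval_cases b <;> omega

lemma ar2 {b i i' : ℕ} (hb : b < 2) (e1 : line b i = line b i') (n : i ≠ i') :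
    line (1 - b) i < line (1 - b) i' ∨ line (1 - b) i' < line (1 - b) i := by
  unfold line at *
  interval_cases b <;> omega

lemma ar3 {b i j i' j' : ℕ} (hb : b < 2) (e1 : line b i = line b i') (e2 : line b j = line b j')
    (m1 : i % 2 ≠ j % 2) (m2 : ¬ i' % 2 ≠ j' % 2) : (i = i' ∧ j ≠ j') ∨ (i ≠ i' ∧ j = j') := by
  unfold line at *
  interval_cases b <;> omega

lemma ar4 {b i j i' j' : ℕ} (hb : b < 2) (e1 : line b i = line b i') (e2 : line b j = line b j')
    (m1 : ¬ i % 2 ≠ j % 2) (m2 : ¬ i' % 2 ≠ j' % 2) :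
    (i = i' ∧ j = j') ∨ (i' = i + 1 ∧ j' = j + 1) ∨ (i = i' + 1 ∧ j = j' + 1) := by
  unfold line at *
  interval_cases b <;> omega

lemma ar5 (b i : ℕ) : i ≤ line b i ∧ line b i ≤ i + 1 := by
  unfold line
  omega

/-- a drawing of the points on the staircase with directions `s` -/
structure Lab (s : ℕ → Bool) (Z : ℕ → P → ℤ) (l T : P → ℕ) : Prop where
  injT : Injective T
  blk : ∀ b < 2, ∀ p q, line b (l p) < line b (l q) → Z b p < Z b q
  dir : ∀ b < 2, ∀ p q, line b (l p) = line b (l q) → T p < T q →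
    (Z b p < Z b q ↔ s (line b (l p)) = false)

/-- small width: an ordering all of whose initial segments have small boundaries -/
def Wd (Z : ℕ → P → ℤ) (w : ℕ) : Prop :=
  ∃ ρ : P → ℕ, Injective ρ ∧ ∀ m, ∀ b < 2, (bd (Z b) {p | ρ p < m}).ncard ≤ w ∧
    (bd (fun p => -Z b p) {p | ρ p < m}).ncard ≤ w

section lab

variable {s s' : ℕ → Bool} {Z : ℕ → P → ℤ} {l T l' T' : P → ℕ}

lemma Lab.lt_iff (h : Lab s Z l T) (hZ : ∀ b < 2, Injective (Z b)) {b : ℕ} (hb : b < 2) {p q : P}
    (hl : line b (l p) = line b (l q)) (hne : p ≠ q) :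
    Z b p < Z b q ↔ (T p < T q ↔ s (line b (l p)) = false) := by
  have h1 : T p ≠ T q := fun e => hne (h.injT e)
  have h2 : Z b p ≠ Z b q := fun e => hne (hZ b hb e)
  rcases lt_or_gt_of_ne h1 with k | k
  · rw [h.dir b hb p q hl k]
    simp [k]
  · have k1 := h.dir b hb q p hl.symm k
    rw [← hl] at k1
    have k2 : ¬ T p < T q := by omega
    simp only [k2, false_iff]
    rw [← k1]
    omega

lemma Lab.orient (h : Lab s Z l T) (hZ : ∀ b < 2, Injective (Z b)) {p q : P} (hne : p ≠ q)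
    (hl : l p = l q) : (Z 0 p < Z 0 q ↔ Z 1 p < Z 1 q) ↔ s (l p) = s (l p + 1) := by
  rw [h.lt_iff hZ (b := 0) (by norm_num) (by rw [hl]) hne,
    h.lt_iff hZ (b := 1) (by norm_num) (by rw [hl]) hne]
  rcases Nat.mod_two_eq_zero_or_one (l p) with k | k
  · have e0 : line 0 (l p) = l p := by unfold line; omega
    have e1 : line 1 (l p) = l p + 1 := by unfold line; omega
    rw [e0, e1]
    cases s (l p) <;> cases s (l p + 1) <;> by_cases hT : T p < T q <;> simp [hT]
  · have e0 : line 0 (l p) = l p + 1 := by unfold line; omega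
    have e1 : line 1 (l p) = l p := by unfold line; omega
    rw [e0, e1]
    cases s (l p) <;> cases s (l p + 1) <;> by_cases hT : T p < T q <;> simp [hT]

lemma Lab.between (h : Lab s Z l T) (hZ : ∀ b < 2, Injective (Z b)) {b b' : ℕ} (hb : b < 2)
    (hb' : b' < 2) {p q r : P} (h1 : l p = l q) (h2 : l p = l r) (k1 : Z b p < Z b q)
    (k2 : Z b q < Z b r) :
    (Z b' p < Z b' q ∧ Z b' q < Z b' r) ∨ (Z b' r < Z b' q ∧ Z b' q < Z b' p) := by
  have n1 : p ≠ q := by rintro rfl; omega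
  have n2 : q ≠ r := by rintro rfl; omega
  have a1 := h.lt_iff hZ hb (by rw [h1]) n1
  have a2 := h.lt_iff hZ hb (by rw [← h1, h2]) n2
  have a3 := h.lt_iff hZ hb' (by rw [h1]) n1
  have a4 := h.lt_iff hZ hb' (by rw [← h1, h2]) n2
  have a5 : Z b' p ≠ Z b' q := fun e => n1 (hZ b' hb' e)
  have a6 : Z b' q ≠ Z b' r := fun e => n2 (hZ b' hb' e)
  rw [← h1] at a2 a4
  have e1 := a1.1 k1
  have e2 := a2.1 k2
  have e3 : Z b' p < Z b' q ↔ Z b' q < Z b' r := by
    rw [a3, a4, e1, e2]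
  by_cases c : Z b' p < Z b' q
  · exact Or.inl ⟨c, e3.1 c⟩
  · have := mt e3.2 c
    right
    omega

/-- two different points lie in the refined cell `(i, j)` -/
def Fat (l l' : P → ℕ) (i j : ℕ) : Prop :=
  ∃ p q, p ≠ q ∧ l p = i ∧ l' p = j ∧ l q = i ∧ l' q = j

open Classical in
/-- length of the run of fat cells ending in `(i, j)` -/
noncomputable def back (l l' : P → ℕ) : ℕ → ℕ → ℕ
  | 0, _ => 0
  | _ + 1, 0 => 0
  | i + 1, j + 1 => if Fat l l' i j ∧ Fat l l' (i + 1) (j + 1) then back l l' i j + 1 else 0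

lemma back_le (l l' : P → ℕ) : ∀ i j, back l l' i j ≤ i ∧ back l l' i j ≤ j
  | 0, _ => by simp [back]
  | _ + 1, 0 => by simp [back]
  | i + 1, j + 1 => by
    have := back_le l l' i j
    simp only [back]
    split_ifs <;> omega

lemma back_fat (l l' : P → ℕ) : ∀ i j u, u < back l l' i j → Fat l l' (i - u - 1) (j - u - 1)
  | 0, _, u, h => by simp [back] at h
  | _ + 1, 0, u, h => by simp [back] at h
  | i + 1, j + 1, u, h => by
    simp only [back] at h
    split_ifs at h with c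
    · cases u with
      | zero => simpa using c.1
      | succ u =>
        have := back_fat l l' i j u (by omega)
        have e1 : i + 1 - (u + 1) - 1 = i - u - 1 := by omega
        have e2 : j + 1 - (u + 1) - 1 = j - u - 1 := by omega
        rw [e1, e2]
        exact this
    · omega

theorem wd_of_two [Finite P] (h : Lab s Z l T) (h' : Lab s' Z l' T')
    (hZ : ∀ b < 2, Injective (Z b)) (L : ℕ)
    (hL : ∀ i j, ∃ u < L, ¬ (s (i + u) = s (i + u + 1) ↔ s' (j + u) = s' (j + u + 1))) :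
    Wd Z (8 * (2 * L + 5)) := by
  classical
  have hback : ∀ i j, back l l' i j ≤ L := by
    intro i j
    by_contra hc
    have hb := back_le l l' i j
    obtain ⟨u, hu, hu2⟩ := hL (i - L) (j - L)
    obtain ⟨p, q, hne, e1, e2, e3, e4⟩ := back_fat l l' i j (L - 1 - u) (by omega)
    have o1 := h.orient hZ hne (e1.trans e3.symm)
    have o2 := h'.orient hZ hne (e2.trans e4.symm)
    have f1 : l p = i - L + u := by omega
    have f2 : l' p = j - L + u := by omega
    rw [f1] at o1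
    rw [f2] at o2
    exact hu2 (o1.symm.trans o2)
  let G : P → ℕ := fun p => l p + l' p - 2 * back l l' (l p) (l' p)
  obtain ⟨B, hB⟩ : ∃ B, ∀ p, T p < B := by
    obtain ⟨B, hB⟩ := (Set.finite_range T).bddAbove
    exact ⟨B + 1, fun p => Nat.lt_succ_of_le (hB ⟨p, rfl⟩)⟩
  refine ⟨fun p => G p * B + T p, ?_, ?_⟩
  · intro p q e
    have e' : G p * B + T p = G q * B + T q := e
    have k1 := congrArg (· % B) e'
    simp only [Nat.mul_add_mod_self_right, Nat.mod_eq_of_lt (hB _)] at k1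
    exact h.injT k1
  intro m b hb
  rcases isEmpty_or_nonempty P with hP | ⟨⟨p0⟩⟩
  · simp [Set.eq_empty_of_isEmpty]
  have hB0 : 0 < B := lt_of_le_of_lt (Nat.zero_le _) (hB p0)
  have hS : ∀ p, p ∈ {p | G p * B + T p < m} ↔ G p < m / B ∨ (G p = m / B ∧ T p < m % B) := by
    intro p
    have k1 := Nat.div_add_mod m B
    have k2 := Nat.mod_lt m hB0
    have k3 := hB p
    simp only [Set.mem_ofPred_eq]
    rcases lt_trichotomy (G p) (m / B) with c | c | c
    · have : (G p + 1) * B ≤ m / B * B := Nat.mul_le_mul_right _ c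
      constructor
      · exact fun _ => Or.inl c
      · intro _
        rw [add_mul, mul_comm (m / B) B] at this
        omega
    · rw [c]
      constructor
      · intro k; right; exact ⟨rfl, by nlinarith⟩
      · rintro (k | k)
        · omega
        · nlinarith [k.2]
    · have : (m / B + 1) * B ≤ G p * B := Nat.mul_le_mul_right _ c
      constructor
      · intro k; nlinarith
      · rintro (k | k) <;> omega
  let K : P → ℤ := fun p => ((line b (l p) + line b (l' p) : ℕ) : ℤ)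
  let M : P → Prop := fun p => l p % 2 ≠ l' p % 2
  let thin : P → Prop := fun p => ¬ M p ∧ ¬ Fat l l' (l p) (l' p)
  let side : P → Bool := fun p => decide (l p % 2 = 0)
  have hK : ∀ p q, K p < K q → Z b p < Z b q := by
    intro p q k
    simp only [K] at k
    by_cases c : line b (l p) < line b (l q)
    · exact h.blk b hb p q c
    · exact h'.blk b hb p q (by omega)
  have hKe : ∀ p q, K p = K q → line b (l p) = line b (l q) ∧ line b (l' p) = line b (l' q) := by
    intro p q k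
    have k' : line b (l p) + line b (l' p) = line b (l q) + line b (l' q) :=
      Int.ofNat_inj.1 k
    rcases lt_trichotomy (line b (l p)) (line b (l q)) with c | c | c
    · exact absurd (h.blk b hb p q c) (not_lt.2 (h'.blk b hb q p (by omega)).le)
    · exact ⟨c, by omega⟩
    · exact absurd (h.blk b hb q p c) (not_lt.2 (h'.blk b hb p q (by omega)).le)
  have hb' : 1 - b < 2 := by omega
  have hMM : ∀ p q, K p = K q → M p → M q → l p = l q ∧ l' p = l' q := by
    intro p q k m1 m2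
    obtain ⟨e1, e2⟩ := hKe p q k
    rcases ar1 hb e1 e2 m1 m2 with c | c | c
    · exact c
    · exact absurd (h.blk _ hb' p q c.1) (not_lt.2 (h'.blk _ hb' q p c.2).le)
    · exact absurd (h.blk _ hb' q p c.1) (not_lt.2 (h'.blk _ hb' p q c.2).le)
  have hT0 : ∀ p q, K p = K q → p ≠ q → (Z b p < Z b q ↔ (T p < T q ↔ s (line b (l p)) = false)) :=
    fun p q k n => h.lt_iff hZ hb (hKe p q k).1 n
  have hM0 : ∀ p q r, K p = K q → K p = K r → M p → M r → Z b p < Z b q → Z b q < Z b r →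
      M q := by
    intro p q r k1 k2 m1 m2 z1 z2
    by_contra m3
    obtain ⟨e1, e2⟩ := hMM p r k2 m1 m2
    obtain ⟨e3, e4⟩ := hKe p q k1
    rcases ar3 hb e3 e4 m1 (not_not.2 m3) with ⟨c, c'⟩ | ⟨c, c'⟩
    · have a0 := h.between hZ hb hb' c e1 z1 z2
      rcases ar2 hb e4 c' with d | d
      · have a1 := h'.blk _ hb' p q d
        have a2 := h'.blk _ hb' r q (e2 ▸ d)
        rcases a0 with a0 | a0
        · exact lt_asymm a0.2 a2
        · exact lt_asymm a0.2 a1
      · have a1 := h'.blk _ hb' q p d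
        have a2 := h'.blk _ hb' q r (e2 ▸ d)
        rcases a0 with a0 | a0
        · exact lt_asymm a0.1 a1
        · exact lt_asymm a0.1 a2
    · have a0 := h'.between hZ hb hb' c' e2 z1 z2
      rcases ar2 hb e3 c with d | d
      · have a1 := h.blk _ hb' p q d
        have a2 := h.blk _ hb' r q (e1 ▸ d)
        rcases a0 with a0 | a0
        · exact lt_asymm a0.2 a2
        · exact lt_asymm a0.2 a1
      · have a1 := h.blk _ hb' q p d
        have a2 := h.blk _ hb' q r (e1 ▸ d)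
        rcases a0 with a0 | a0
        · exact lt_asymm a0.1 a1
        · exact lt_asymm a0.1 a2
  have hMG : ∀ p q, K p = K q → M p → M q → G p = G q := by
    intro p q k m1 m2
    obtain ⟨e1, e2⟩ := hMM p q k m1 m2
    simp only [G, e1, e2]
  have hthin : ∀ p q, K p = K q → thin p → thin q → side p = side q → p = q := by
    intro p q k t1 t2 sd
    obtain ⟨e1, e2⟩ := hKe p q k
    by_contra n
    have sd' : l p % 2 = 0 ↔ l q % 2 = 0 := by simpa [side] using sd
    obtain ⟨f1, f2⟩ : l q = l p ∧ l' q = l' p := by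
      rcases ar4 hb e1 e2 t1.1 t2.1 with c | c | c
      · exact ⟨c.1.symm, c.2.symm⟩
      · exfalso
        rw [c.1] at sd'
        clear * - sd'
        omega
      · exfalso
        rw [c.1] at sd'
        clear * - sd'
        omega
    exact t1.2 ⟨p, q, n, rfl, rfl, f1, f2⟩
  have hstep : ∀ p q, l q = l p + 1 → l' q = l' p + 1 → Fat l l' (l p) (l' p) →
      Fat l l' (l q) (l' q) → G p = G q := by
    intro p q e1 e2 f1 f2
    have k := back_le l l' (l p) (l' p)
    simp only [G]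
    rw [e1, e2] at f2 ⊢
    simp only [back, f1, f2, and_self, if_true]
    omega
  have hG : ∀ p q, K p = K q → ¬ M p → ¬ M q → ¬ thin p → ¬ thin q → G p = G q := by
    intro p q k m1 m2 t1 t2
    obtain ⟨e1, e2⟩ := hKe p q k
    have f1 : Fat l l' (l p) (l' p) := by_contra fun c => t1 ⟨m1, c⟩
    have f2 : Fat l l' (l q) (l' q) := by_contra fun c => t2 ⟨m2, c⟩
    have := ar4 hb e1 e2 m1 m2
    rcases this with c | c | c
    · simp only [G, c.1, c.2]
    · exact hstep p q c.1 c.2 f1 f2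
    · exact (hstep q p c.1 c.2 f2 f1).symm
  have hlo : ∀ p, K p ≤ (m / B : ℕ) - 1 → p ∈ {p | G p * B + T p < m} := by
    intro p k
    rw [hS]
    left
    have a1 := ar5 b (l p)
    have a2 := ar5 b (l' p)
    have k' : ((line b (l p) + line b (l' p) : ℕ) : ℤ) ≤ (m / B : ℕ) - 1 := k
    change l p + l' p - 2 * back l l' (l p) (l' p) < m / B
    generalize m / B = g at *
    clear * - a1 a2 k'
    omega
  have hhi : ∀ p, ((m / B : ℕ) : ℤ) + 2 * L + 3 ≤ K p → p ∉ {p | G p * B + T p < m} := by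
    intro p k
    rw [hS]
    have a0 := hback (l p) (l' p)
    have a1 := ar5 b (l p)
    have a2 := ar5 b (l' p)
    have k' : ((m / B : ℕ) : ℤ) + 2 * L + 3 ≤ ((line b (l p) + line b (l' p) : ℕ) : ℤ) := k
    have a3 : m / B < G p := by
      change m / B < l p + l' p - 2 * back l l' (l p) (l' p)
      generalize m / B = g at *
      clear * - a0 a1 a2 k'
      omega
    rintro (c | c)
    · exact lt_asymm c a3
    · exact a3.ne' c.1
  constructor
  · refine (bd_ncard_le (Z b) (hZ b hb) K T G M thin side (m / B) (m % B) _ hS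
      ((m / B : ℕ) - 1) ((m / B : ℕ) + 2 * L + 3) (by omega) hK ?_ hM0 hMG hthin hG
      (fun p q a c => iff_of_true (hlo p a) (hlo q c))
      (fun p q a c => iff_of_false (hhi p a) (hhi q c))).trans (by omega)
    intro p q p' q' k1 k2 k3 z1 t1 z2
    have n1 : p ≠ q := by rintro rfl; omega
    have n2 : p' ≠ q' := by rintro rfl; omega
    have a1 := (hT0 p q k1 n1).1 z1
    have a2 := (hT0 p' q' (k2.symm.trans k3) n2).1 z2
    rw [← (hKe p p' k2).1] at a2
    exact a2.2 (a1.1 t1)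
  · refine (bd_ncard_le (fun p => -Z b p) (fun p q e => hZ b hb (neg_inj.1 e)) (fun p => -K p) T G
      M thin side (m / B) (m % B) _ hS (-((m / B : ℕ) + 2 * L + 3)) (-((m / B : ℕ) - 1))
      (by omega) (fun p q k => neg_lt_neg (hK q p (neg_lt_neg_iff.1 k))) ?_
      (fun p q r k1 k2 m1 m2 z1 z2 => hM0 r q p (by have := neg_inj.1 k1; have := neg_inj.1 k2; omega)
        (neg_inj.1 k2).symm m2 m1 (neg_lt_neg_iff.1 z2) (neg_lt_neg_iff.1 z1))
      (fun p q k => hMG p q (neg_inj.1 k)) (fun p q k => hthin p q (neg_inj.1 k))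
      (fun p q k => hG p q (neg_inj.1 k))
      (fun p q a c => iff_of_false (hhi p (neg_le_neg_iff.1 a)) (hhi q (neg_le_neg_iff.1 c)))
      (fun p q a c => iff_of_true (hlo p (neg_le_neg_iff.1 a)) (hlo q (neg_le_neg_iff.1 c)))).trans
      (by omega)
    intro p q p' q' k1 k2 k3 z1 t1 z2
    have k1' := neg_inj.1 k1
    have k2' := neg_inj.1 k2
    have k3' := neg_inj.1 k3
    have z1' := neg_lt_neg_iff.1 z1
    have z2' := neg_lt_neg_iff.1 z2
    have n1 : p ≠ q := by rintro rfl; omega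
    have n2 : p' ≠ q' := by rintro rfl; omega
    have a1 := hT0 p q k1' n1
    have a2 := hT0 p' q' (k2'.symm.trans k3') n2
    rw [← (hKe p p' k2').1] at a2
    have b1 : ¬ Z b p < Z b q := by omega
    have b2 : ¬ Z b p' < Z b q' := by omega
    have c1 := mt a1.2 b1
    have c2 := mt a2.2 b2
    by_contra c3
    exact c2 ⟨fun k => absurd k c3, fun k => absurd ⟨fun _ => k, fun _ => t1⟩ c1⟩

end lab

end Pool.Agent.H761Z.PPM
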