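import Pool.Agent.H761Z.PPM.Defs
import Pool.Agent.H761Z.PPM.Width
import Pool.Agent.H671R2.PolyAuto
import Pool.Agent.NPC.Dec

set_option autoImplicit false

namespace Pool.Agent.H761Z.PPM

open Pool.Agent.NPC Function

def tuples {β : Type} (l : List β) : ℕ → List (List β)
  | 0 => [[]]
  | k + 1 => (tuples l k).flatMap (fun t => l.map (fun e => e :: t))

lemma mem_tuples {β : Type} (l : List β) : ∀ (k : ℕ) (t : List β),
    t ∈ tuples l k ↔ t.length = k ∧ ∀ e ∈ t, e ∈ l
  | 0, t => by
    cases t <;> simp [tuples]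
  | k + 1, t => by
    simp only [tuples, List.mem_flatMap, List.mem_map]
    constructor
    · rintro ⟨u, hu, e, he, rfl⟩
      obtain ⟨h1, h2⟩ := (mem_tuples l k u).1 hu
      refine ⟨by simp [h1], ?_⟩
      intro x hx
      rcases List.mem_cons.1 hx with rfl | hx
      · exact he
      · exact h2 x hx
    · rintro ⟨h1, h2⟩
      cases t with
      | nil => simp at h1
      | cons e u =>
        exact ⟨u, (mem_tuples l k u).2 ⟨by simpa using h1, fun x hx => h2 x (by simp [hx])⟩, e,
          h2 e (by simp), rfl⟩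

lemma poly_tuples {α β : Type} [TEnc α] [TEnc β] {l : α → List β} (hl : Poly l) :
    ∀ k, Poly (fun a => tuples (l a) k)
  | 0 => Pool.Agent.NPC.Poly.const _
  | k + 1 => by
    have ih := poly_tuples hl k
    simp only [tuples]
    fun_prop

abbrev Inst := List ℕ × List ℕ

def rg1 (a : Inst) : List ℕ := List.range a.1.length
def rg2 (a : Inst) : List ℕ := List.range a.2.length
def base (a : Inst) : List (ℕ × ℕ) := rg1 a ×ˢ rg2 a

def rel (a : Inst) (e e' : ℕ × ℕ) : Bool :=
  decide (decide (e.1 < e'.1) = decide (e.2 < e'.2)) &&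
    decide (decide (a.1.getD e.1 0 < a.1.getD e'.1 0) = decide (a.2.getD e.2 0 < a.2.getD e'.2 0))

def okp (a : Inst) (h : List (ℕ × ℕ)) : Bool := h.all fun e => h.all fun e' => rel a e e'

def H0 (k : ℕ) (a : Inst) : List (List (ℕ × ℕ)) := (tuples (base a) (k + 1)).filter (okp a)

def cond (k : ℕ) (a : Inst) (H : List (List (ℕ × ℕ))) (h : List (ℕ × ℕ)) : Bool :=
  (tuples (base a) k).all fun h' => !(h'.all fun e => decide (e ∈ h)) ||
    (rg1 a).all fun p => (rg2 a).any fun v => decide ((p, v) :: h' ∈ H)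

def step (k : ℕ) (a : Inst) (H : List (List (ℕ × ℕ))) : List (List (ℕ × ℕ)) :=
  H.filter (cond k a H)

def alg (k : ℕ) (a : Inst) : Bool :=
  a.1.isEmpty || !((step k a)^[(H0 k a).length] (H0 k a)).isEmpty

lemma poly_rg1 : Poly rg1 := Poly.range_length (Poly.fst Poly.id)
lemma poly_rg2 : Poly rg2 := Poly.range_length (Poly.snd Poly.id)
lemma poly_base : Poly base := R671.poly_product poly_rg1 poly_rg2

lemma poly_rel : Poly (fun p : Inst × (ℕ × ℕ) × (ℕ × ℕ) => rel p.1 p.2.1 p.2.2) := by
  unfold rel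
  fun_prop

lemma poly_okp : Poly (fun p : Inst × List (ℕ × ℕ) => okp p.1 p.2) := by
  unfold okp
  refine Poly.all (Poly.snd Poly.id) (Poly.all (by fun_prop) ?_)
  exact poly_rel.comp (f := fun q : ((Inst × List (ℕ × ℕ)) × (ℕ × ℕ)) × (ℕ × ℕ) =>
    (q.1.1.1, q.1.2, q.2)) (by fun_prop)

lemma poly_H0 (k : ℕ) : Poly (H0 k) :=
  Poly.filter (poly_tuples poly_base (k + 1)) poly_okp

lemma poly_cond (k : ℕ) : Poly (fun p : (Inst × List (List (ℕ × ℕ))) × List (ℕ × ℕ) =>
    cond k p.1.1 p.1.2 p.2) := by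
  unfold cond
  have h1 := poly_rg1
  have h2 := poly_rg2
  refine Poly.all ((poly_tuples poly_base k).comp (by fun_prop)) (Poly.or (by fun_prop) ?_)
  refine Poly.all (h1.comp (by fun_prop)) (Poly.any (h2.comp (by fun_prop)) ?_)
  fun_prop

lemma poly_step (k : ℕ) : Poly (fun p : Inst × List (List (ℕ × ℕ)) => step k p.1 p.2) :=
  Poly.filter (Poly.snd Poly.id) (poly_cond k)

lemma sz_filter_le {β : Type} [TEnc β] (p : β → Bool) (l : List β) : sz (l.filter p) ≤ sz l := by
  induction l with
  | nil => simp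
  | cons a l ih =>
    rw [List.filter_cons]
    split_ifs
    · simp only [sz_list_cons]; omega
    · simp only [sz_list_cons]; omega

lemma poly_alg (k : ℕ) : Poly (alg k) := by
  obtain ⟨q, hq⟩ := (poly_H0 k).sz_le
  have h := Poly.iterLen (F := step k) (poly_H0 k) (poly_H0 k) (poly_step k) q (by
    intro a j hj
    clear hj
    refine le_trans ?_ (hq a)
    induction j with
    | zero => exact le_rfl
    | succ j ih =>
      rw [Function.iterate_succ_apply']
      exact (sz_filter_le _ _).trans ih)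
  exact Poly.or (Poly.isEmpty (Poly.fst Poly.id)) (Poly.not (Poly.isEmpty h))

lemma mem_base {a : Inst} {e : ℕ × ℕ} : e ∈ base a ↔ e.1 < a.1.length ∧ e.2 < a.2.length := by
  obtain ⟨x, y⟩ := e
  simp [base, rg1, rg2]

lemma rel_iff {a : Inst} {e e' : ℕ × ℕ} : rel a e e' = true ↔ (e.1 < e'.1 ↔ e.2 < e'.2) ∧
    (a.1.getD e.1 0 < a.1.getD e'.1 0 ↔ a.2.getD e.2 0 < a.2.getD e'.2 0) := by
  simp only [rel, Bool.and_eq_true, decide_eq_true_eq, decide_eq_decide]

lemma cond_iff {k : ℕ} {a : Inst} {H : List (List (ℕ × ℕ))} {h : List (ℕ × ℕ)} :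
    cond k a H h = true ↔ ∀ h' ∈ tuples (base a) k, (∀ e ∈ h', e ∈ h) →
      ∀ p < a.1.length, ∃ v < a.2.length, (p, v) :: h' ∈ H := by
  simp only [cond, List.all_eq_true, Bool.or_eq_true, Bool.not_eq_true', List.any_eq_true,
    decide_eq_true_eq, rg1, rg2, List.mem_range]
  refine forall₂_congr fun h' _ => ?_
  constructor
  · rintro (c | c) d
    · exfalso
      have : (h'.all fun e => decide (e ∈ h)) = true := by simpa using d
      rw [this] at c
      exact absurd c (by simp)
    · exact c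
  · intro c
    by_cases d : ∀ e ∈ h', e ∈ h
    · exact Or.inr (c d)
    · left
      rw [← Bool.not_eq_true]
      simpa using d

lemma getD_get (l : List ℕ) (i : Fin l.length) : l.getD i 0 = l.get i := by
  simp

theorem alg_of_contains (k : ℕ) (a : Inst) (h : Contains a.2 a.1) : alg k a = true := by
  obtain ⟨f, hf, hf2⟩ := h
  by_cases hn : a.1.length = 0
  · simp [alg, List.length_eq_zero_iff.1 hn]
  have key : ∀ j, ∀ t : List (ℕ × ℕ), t.length = k + 1 →
      (∀ e ∈ t, ∃ i : Fin a.1.length, e = ((i : ℕ), (f i : ℕ))) → t ∈ (step k a)^[j] (H0 k a) := by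
    intro j
    induction j with
    | zero =>
      intro t h1 h2
      simp only [Function.iterate_zero, id, H0, List.mem_filter, mem_tuples]
      refine ⟨⟨h1, fun e he => ?_⟩, ?_⟩
      · obtain ⟨i, rfl⟩ := h2 e he
        exact mem_base.2 ⟨i.2, (f i).2⟩
      · simp only [okp, List.all_eq_true]
        intro e he e' he'
        obtain ⟨i, rfl⟩ := h2 e he
        obtain ⟨i', rfl⟩ := h2 e' he'
        rw [rel_iff]
        refine ⟨hf.lt_iff_lt.symm, ?_⟩
        simp only [getD_get]
        exact hf2 i i'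
    | succ j ih =>
      intro t h1 h2
      rw [Function.iterate_succ_apply', step, List.mem_filter]
      refine ⟨ih t h1 h2, cond_iff.2 fun h' hh' hsub p hp => ⟨f ⟨p, hp⟩, (f ⟨p, hp⟩).2, ?_⟩⟩
      refine ih _ (by simp [((mem_tuples _ _ _).1 hh').1]) fun e he => ?_
      rcases List.mem_cons.1 he with rfl | he
      · exact ⟨⟨p, hp⟩, rfl⟩
      · exact h2 e (hsub e he)
  have := key (H0 k a).length (List.replicate (k + 1) (0, f ⟨0, by omega⟩)) (by simp)
    (fun e he => ⟨⟨0, by omega⟩, (List.eq_of_mem_replicate he)⟩)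
  simp only [alg, Bool.or_eq_true, Bool.not_eq_true', List.isEmpty_eq_false_iff]
  exact Or.inr (List.ne_nil_of_mem this)

lemma exists_fix (k : ℕ) (a : Inst) (h : (step k a)^[(H0 k a).length] (H0 k a) ≠ []) :
    ∃ H : List (List (ℕ × ℕ)), H ≠ [] ∧ (∀ t ∈ H, t ∈ H0 k a) ∧ ∀ t ∈ H, cond k a H t = true := by
  have sub : ∀ j, ∀ t ∈ (step k a)^[j] (H0 k a), t ∈ H0 k a := by
    intro j
    induction j with
    | zero => exact fun t ht => ht
    | succ j ih =>
      intro t ht
      rw [Function.iterate_succ_apply', step, List.mem_filter] at ht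
      exact ih t ht.1
  by_contra hc
  have key : ∀ j, (step k a)^[j] (H0 k a) = [] ∨
      ((step k a)^[j] (H0 k a)).length + j ≤ (H0 k a).length := by
    intro j
    induction j with
    | zero => right; simp
    | succ j ih =>
      rw [Function.iterate_succ_apply']
      by_cases c : (step k a)^[j] (H0 k a) = []
      · left
        rw [c]
        rfl
      · right
        have ih' := ih.resolve_left c
        have : ¬ ∀ t ∈ (step k a)^[j] (H0 k a), cond k a ((step k a)^[j] (H0 k a)) t = true :=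
          fun d => hc ⟨_, c, sub j, d⟩
        have h2 : (step k a ((step k a)^[j] (H0 k a))).length <
            ((step k a)^[j] (H0 k a)).length := by
          rw [step]
          refine List.length_filter_lt_length_iff_exists.2 ?_
          push Not at this
          obtain ⟨t, ht, ht2⟩ := this
          exact ⟨t, ht, ht2⟩
        omega
  rcases key (H0 k a).length with c | c
  · exact h c
  · exact h (List.length_eq_zero_iff.1 (by omega))

section ext

variable {P : Type} [Finite P]

lemma exists_bd (Z : P → ℤ) (hZ : Injective Z) (S : Set P) {p q : P} (hq : q ∈ S) (hp : p ∉ S)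
    (h : Z q < Z p) : ∃ b ∈ bd Z S, Z q ≤ Z b ∧ Z b < Z p := by
  obtain ⟨b, hb, hb2⟩ := Set.exists_max_image {u | u ∈ S ∧ Z u < Z p} Z (Set.toFinite _)
    ⟨q, hq, h⟩
  obtain ⟨r, hr, hr2⟩ := Set.exists_min_image {u | Z b < Z u} Z (Set.toFinite _) ⟨p, hb.2⟩
  refine ⟨b, ⟨hb.1, r, fun hrS => ?_, hr, fun u hu => hr2 u hu⟩, hb2 q ⟨hq, h⟩, hb.2⟩
  have h1 := hr2 p hb.2
  have h2 : Z r ≠ Z p := fun e => hp (hZ e ▸ hrS)
  have h3 := hb2 r ⟨hrS, lt_of_le_of_ne h1 h2⟩
  exact absurd hr (not_lt.2 h3)

lemma extend (Z : P → ℤ) (hZ : Injective Z) (S : Set P) (W : P → ℕ) (w0 : ℕ) {p : P} (hp : p ∉ S)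
    (h1 : ∀ q ∈ S, ∀ q' ∈ S, Z q < Z q' ↔ W q < W q')
    (h2 : ∀ b ∈ bd Z S, Z b < Z p ↔ W b < w0)
    (h3 : ∀ b ∈ bd (fun u => -Z u) S, Z p < Z b ↔ w0 < W b) :
    ∀ q ∈ S, (Z q < Z p ↔ W q < w0) ∧ (Z p < Z q ↔ w0 < W q) := by
  intro q hq
  have hne : Z q ≠ Z p := fun e => hp (hZ e ▸ hq)
  rcases lt_or_gt_of_ne hne with c | c
  · obtain ⟨b, hb, k1, k2⟩ := exists_bd Z hZ S hq hp c
    have k3 := (h2 b hb).1 k2
    have k4 := mt (h1 b hb.1 q hq).2 (not_lt.2 k1)
    constructor <;> constructor <;> intro _ <;> omega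
  · obtain ⟨b, hb, k1, k2⟩ := exists_bd (fun u => -Z u) (fun u v e => hZ (neg_inj.1 e)) S hq hp
      (neg_lt_neg c)
    have k3 := (h3 b hb).1 (neg_lt_neg_iff.1 k2)
    have k4 := mt (h1 q hq b hb.1).2 (not_lt.2 (neg_le_neg_iff.1 k1))
    constructor <;> constructor <;> intro _ <;> omega

end ext

/-- the two coordinates of the points of a permutation -/
def Zp (π : List ℕ) (b : ℕ) (i : Fin π.length) : ℤ := if b = 0 then (i : ℕ) else π.get i

lemma IsPerm.nodup {π : List ℕ} (h : IsPerm π) : π.Nodup :=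
  h.nodup_iff.2 (List.nodup_range' 1)

lemma Zp_inj {π : List ℕ} (h : IsPerm π) (b : ℕ) : Injective (Zp π b) := by
  intro i j e
  unfold Zp at e
  split_ifs at e
  · exact Fin.ext (by exact_mod_cast e)
  · exact (List.nodup_iff_injective_get.1 h.nodup) (by exact_mod_cast e)

theorem contains_of_alg (w : ℕ) (a : Inst) (hπ : IsPerm a.1) (hw : Wd (Zp a.1) w)
    (h : alg (4 * w) a = true) : Contains a.2 a.1 := by
  classical
  by_cases hn : a.1.length = 0
  · have : IsEmpty (Fin a.1.length) := by rw [hn]; infer_instance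
    exact ⟨fun i => isEmptyElim i, fun i => isEmptyElim i, fun i => isEmptyElim i⟩
  have h' : (step (4 * w) a)^[(H0 (4 * w) a).length] (H0 (4 * w) a) ≠ [] := by
    simp only [alg, Bool.or_eq_true, Bool.not_eq_true', List.isEmpty_eq_false_iff,
      List.isEmpty_iff] at h
    refine h.resolve_left fun c => hn ?_
    rw [c]
    rfl
  obtain ⟨H, hH0, hH1, hH2⟩ := exists_fix _ a h'
  obtain ⟨ρ, hρ, hb⟩ := hw
  let D : Set (Fin a.1.length) → Set (Fin a.1.length) := fun S =>
    bd (Zp a.1 0) S ∪ bd (fun p => -Zp a.1 0 p) S ∪ bd (Zp a.1 1) S ∪ bd (fun p => -Zp a.1 1 p) S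
  have key : ∀ m, ∃ f : Fin a.1.length → ℕ, (∀ p, ρ p < m → f p < a.2.length) ∧
      (∀ p, ρ p < m → ∀ q, ρ q < m → (Zp a.1 0 p < Zp a.1 0 q ↔ f p < f q) ∧
        (Zp a.1 1 p < Zp a.1 1 q ↔ a.2.getD (f p) 0 < a.2.getD (f q) 0)) ∧
      ∃ t ∈ H, ∀ q ∈ D {p | ρ p < m}, ((q : ℕ), f q) ∈ t := by
    intro m
    induction m with
    | zero =>
      obtain ⟨t, ht⟩ := List.exists_mem_of_ne_nil H hH0
      refine ⟨fun _ => 0, fun p hp => absurd hp (Nat.not_lt_zero _),
        fun p hp => absurd hp (Nat.not_lt_zero _), t, ht, fun q hq => ?_⟩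
      rcases hq with ((c | c) | c) | c <;> exact absurd c.1 (Nat.not_lt_zero _)
    | succ m ih =>
      obtain ⟨f, f1, f2, t, ht, f3⟩ := ih
      by_cases hex : ∃ p0, ρ p0 = m
      swap
      · have e : ∀ p, ρ p < m + 1 ↔ ρ p < m := fun p => by
          have : ρ p ≠ m := fun c => hex ⟨p, c⟩
          omega
        simp only [e]
        exact ⟨f, f1, f2, t, ht, f3⟩
      obtain ⟨p0, hp0⟩ := hex
      have ht0 := hH1 t ht
      simp only [H0, List.mem_filter, mem_tuples] at ht0
      obtain ⟨e0, he0⟩ := List.exists_mem_of_ne_nil t (by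
        intro c
        rw [c] at ht0
        simp at ht0)
      have hD : (D {p | ρ p < m}).toFinset.card ≤ 4 * w := by
        rw [← Set.ncard_eq_toFinset_card']
        have b0 := hb m 0 (by norm_num)
        have b1 := hb m 1 (by norm_num)
        refine (Set.ncard_union_le _ _).trans ?_
        refine (Nat.add_le_add_right (Set.ncard_union_le _ _) _).trans ?_
        refine (Nat.add_le_add_right (Nat.add_le_add_right (Set.ncard_union_le _ _) _) _).trans ?_
        omega
      let h' : List (ℕ × ℕ) :=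
        (D {p | ρ p < m}).toFinset.toList.map (fun q : Fin a.1.length => ((q : ℕ), f q)) ++
          List.replicate (4 * w - (D {p | ρ p < m}).toFinset.card) e0
      have s1 : ∀ e ∈ h', e ∈ t := by
        intro e he
        rcases List.mem_append.1 he with c | c
        · obtain ⟨q, hq, rfl⟩ := List.mem_map.1 c
          exact f3 q (by simpa using hq)
        · rw [List.eq_of_mem_replicate c]
          exact he0
      have s2 : h' ∈ tuples (base a) (4 * w) := by
        refine (mem_tuples _ _ _).2 ⟨?_, fun e he => ht0.1.2 e (s1 e he)⟩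
        simp only [h', List.length_append, List.length_map, Finset.length_toList,
          List.length_replicate]
        omega
      have s3 : ∀ q ∈ D {p | ρ p < m}, ((q : ℕ), f q) ∈ h' := fun q hq =>
        List.mem_append_left _ (List.mem_map.2 ⟨q, by simpa using hq, rfl⟩)
      obtain ⟨v, hv, hv2⟩ := cond_iff.1 (hH2 t ht) h' s2 s1 p0 p0.2
      have ok := hH1 _ hv2
      simp only [H0, List.mem_filter, okp, List.all_eq_true] at ok
      have r1 : ∀ q ∈ D {p | ρ p < m}, rel a ((q : ℕ), f q) (p0, v) = true := fun q hq =>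
        ok.2 _ (List.mem_cons_of_mem _ (s3 q hq)) _ List.mem_cons_self
      have r2 : ∀ q ∈ D {p | ρ p < m}, rel a (p0, v) ((q : ℕ), f q) = true := fun q hq =>
        ok.2 _ List.mem_cons_self _ (List.mem_cons_of_mem _ (s3 q hq))
      have hp0S : p0 ∉ {p | ρ p < m} := by
        simp [hp0]
      have z0 : ∀ p q : Fin a.1.length, Zp a.1 0 p < Zp a.1 0 q ↔ (p : ℕ) < q := by
        intro p q
        simp [Zp]
      have z1 : ∀ p q : Fin a.1.length,
          Zp a.1 1 p < Zp a.1 1 q ↔ a.1.getD p 0 < a.1.getD q 0 := by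
        intro p q
        simp [Zp]
      have x0 := extend (Zp a.1 0) (Zp_inj hπ 0) {p | ρ p < m} f v hp0S
        (fun q hq q' hq' => (f2 q hq q' hq').1)
        (fun b hb => by
          rw [z0]
          exact (rel_iff.1 (r1 b (.inl (.inl (.inl hb))))).1)
        (fun b hb => by
          rw [z0]
          exact (rel_iff.1 (r2 b (.inl (.inl (.inr hb))))).1)
      have x1 := extend (Zp a.1 1) (Zp_inj hπ 1) {p | ρ p < m} (fun q => a.2.getD (f q) 0)
        (a.2.getD v 0) hp0S
        (fun q hq q' hq' => (f2 q hq q' hq').2)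
        (fun b hb => by
          rw [z1]
          exact (rel_iff.1 (r1 b (.inl (.inr hb)))).2)
        (fun b hb => by
          rw [z1]
          exact (rel_iff.1 (r2 b (.inr hb))).2)
      have cs : ∀ p, ρ p < m + 1 → p = p0 ∨ (p ≠ p0 ∧ ρ p < m) := by
        intro p hp
        by_cases c : p = p0
        · exact Or.inl c
        · have : ρ p ≠ m := fun d => c (hρ (d.trans hp0.symm))
          exact Or.inr ⟨c, by omega⟩
      refine ⟨update f p0 v, ?_, ?_, _, hv2, ?_⟩
      · intro p hp
        rcases cs p hp with rfl | ⟨c, d⟩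
        · simpa using hv
        · rw [update_of_ne c]
          exact f1 p d
      · intro p hp q hq
        rcases cs p hp with rfl | ⟨c, d⟩ <;> rcases cs q hq with rfl | ⟨c', d'⟩
        · simp
        · rw [update_self, update_of_ne c']
          exact ⟨(x0 q d').2, (x1 q d').2⟩
        · rw [update_self, update_of_ne c]
          exact ⟨(x0 p d).1, (x1 p d).1⟩
        · rw [update_of_ne c, update_of_ne c']
          exact f2 p d q d'
      · have mono : ∀ (Z : Fin a.1.length → ℤ) (q), q ∈ bd Z {p | ρ p < m + 1} → q ≠ p0 →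
            q ∈ bd Z {p | ρ p < m} := by
          rintro Z q ⟨k1, r, k2, k3⟩ c
          refine ⟨((cs q k1).resolve_left c).2, r, fun d => k2 ?_, k3⟩
          exact Nat.lt_succ_of_lt d
        intro q hq
        by_cases c : q = p0
        · subst c
          rw [update_self]
          exact List.mem_cons_self
        · rw [update_of_ne c]
          refine List.mem_cons_of_mem _ (s3 q ?_)
          rcases hq with ((d | d) | d) | d
          · exact .inl (.inl (.inl (mono _ q d c)))
          · exact .inl (.inl (.inr (mono _ q d c)))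
          · exact .inl (.inr (mono _ q d c))
          · exact .inr (mono _ q d c)
  obtain ⟨B, hB⟩ := (Set.finite_range ρ).bddAbove
  obtain ⟨f, f1, f2, -⟩ := key (B + 1)
  have hl : ∀ p, ρ p < B + 1 := fun p => Nat.lt_succ_of_le (hB ⟨p, rfl⟩)
  refine ⟨fun p => ⟨f p, f1 p (hl p)⟩, fun p q hpq => ?_, fun p q => ?_⟩
  · have := (f2 p (hl p) q (hl q)).1
    exact this.1 (by simpa [Zp] using hpq)
  · have := (f2 p (hl p) q (hl q)).2
    rw [← getD_get a.2, ← getD_get a.2]
    refine Iff.trans ?_ this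
    simp [Zp]

end Pool.Agent.H761Z.PPM
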