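import Pool.Agent.H761Z.PPM.Alg

set_option autoImplicit false

namespace Pool.Agent.H761Z.PPM

open Function

lemma Lab.pull {P Q : Type} {s : ℕ → Bool} {Z : ℕ → P → ℤ} {l T : P → ℕ} (h : Lab s Z l T)
    (e : Q → P) (he : Injective e) (Z' : ℕ → Q → ℤ)
    (hz : ∀ b < 2, ∀ i j, Z' b i < Z' b j ↔ Z b (e i) < Z b (e j)) :
    Lab s Z' (fun i => l (e i)) (fun i => T (e i)) where
  injT := h.injT.comp he
  blk := fun b hb p q c => (hz b hb p q).2 (h.blk b hb _ _ c)
  dir := fun b hb p q c d => (hz b hb p q).trans (h.dir b hb _ _ c d)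

/-- the staircase class with sign sequence `s` -/
def DC (s : ℕ → Bool) : Set (List ℕ) :=
  {π | IsPerm π ∧ ∃ l T : Fin π.length → ℕ, Lab s (Zp π) l T}

lemma DC_isClass (s : ℕ → Bool) : IsClass (DC s) := by
  refine ⟨fun π h => h.1, ?_⟩
  rintro τ ⟨-, l, T, h⟩ π hπ ⟨f, hf, hf2⟩
  refine ⟨hπ, _, _, h.pull f hf.injective (Zp π) fun b _ i j => ?_⟩
  unfold Zp
  split_ifs
  · simp only [Nat.cast_lt, Fin.val_fin_lt]
    exact hf.lt_iff_lt.symm
  · simp only [Nat.cast_lt]
    exact hf2 i j

lemma exists_rank {P : Type} [Fintype P] (Z : P → ℤ) (hZ : Injective Z) :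
    ∃ e : Fin (Fintype.card P) ≃ P, ∀ i j, i < j ↔ Z (e i) < Z (e j) := by
  let _ : LinearOrder P := LinearOrder.lift' Z hZ
  exact ⟨(monoEquivOfFin P rfl).toEquiv, fun i j => (monoEquivOfFin P rfl).lt_iff_lt.symm⟩

lemma exists_std {P : Type} [Fintype P] (Z : ℕ → P → ℤ) (hZ : ∀ b < 2, Injective (Z b)) :
    ∃ π : List ℕ, IsPerm π ∧ ∃ e : Fin π.length ≃ P,
      ∀ b < 2, ∀ i j, Zp π b i < Zp π b j ↔ Z b (e i) < Z b (e j) := by
  obtain ⟨e0, h0⟩ := exists_rank (Z 0) (hZ 0 (by norm_num))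
  obtain ⟨e1, h1⟩ := exists_rank (Z 1) (hZ 1 (by norm_num))
  refine ⟨List.ofFn (fun i => (e1.symm (e0 i) : ℕ) + 1), ?_,
    (finCongr List.length_ofFn).trans e0, ?_⟩
  · unfold IsPerm
    have k := Equiv.Perm.ofFn_comp_perm (e0.trans e1.symm)
      (fun i : Fin (Fintype.card P) => (i : ℕ) + 1)
    refine k.trans (List.Perm.of_eq ?_)
    apply List.ext_getElem
    · simp
    · intro i _ _
      simp [Nat.add_comm]
  · intro b hb i j
    have : b = 0 ∨ b = 1 := by omega
    rcases this with rfl | rfl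
    · simp only [Zp, if_true, Nat.cast_lt, Equiv.trans_apply]
      rw [← h0]
      rfl
    · have k := h1 (e1.symm (e0 (finCongr List.length_ofFn i)))
        (e1.symm (e0 (finCongr List.length_ofFn j)))
      simp only [Equiv.apply_symm_apply] at k
      simp only [Equiv.trans_apply]
      rw [← k]
      simp [Zp]
      rfl

lemma card_le_intv {ι : Type} [Fintype ι] (B : Set ℕ) (hB : B.Finite) (p q : ι → ℕ)
    (hp : ∀ i, p i ∈ B) (hq : ∀ i, q i ∉ B)
    (sep : ∀ i j, i ≠ j → max (p i) (q i) < min (p j) (q j) ∨ max (p j) (q j) < min (p i) (q i)) :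
    Fintype.card ι ≤ 2 * intv B := by
  have hne : {k : ℕ | ∃ a b : Fin k → ℕ,
      Pairwise (fun i j => Disjoint (Set.Icc (a i) (b i)) (Set.Icc (a j) (b j))) ∧
        ⋃ i, Set.Icc (a i) (b i) = B}.Nonempty := by
    refine ⟨hB.toFinset.card, fun i => hB.toFinset.equivFin.symm i,
      fun i => hB.toFinset.equivFin.symm i, fun i j hij => ?_, ?_⟩
    · simp only [Set.Icc_self, Set.disjoint_singleton]
      intro c
      exact hij (hB.toFinset.equivFin.symm.injective (Subtype.ext c))
    · ext x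
      simp only [Set.Icc_self, Set.mem_iUnion, Set.mem_singleton_iff]
      constructor
      · rintro ⟨i, rfl⟩
        exact hB.mem_toFinset.1 (hB.toFinset.equivFin.symm i).2
      · intro hx
        exact ⟨hB.toFinset.equivFin ⟨x, hB.mem_toFinset.2 hx⟩, by simp⟩
  obtain ⟨a, b, -, hab⟩ := Nat.sInf_mem hne
  have h1 : ∀ i, ∃ c, p i ∈ Set.Icc (a c) (b c) := fun i =>
    Set.mem_iUnion.1 (by rw [hab]; exact hp i)
  choose c hc using h1
  have h2 : ∀ i k, q i ∉ Set.Icc (a k) (b k) := fun i k d =>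
    hq i (hab ▸ Set.mem_iUnion.2 ⟨k, d⟩)
  have inj : Injective (fun i => (decide (p i < q i), c i)) := by
    intro i j e
    by_contra hij
    simp only [Prod.mk.injEq, decide_eq_decide] at e
    have k1 := hc i
    have k2 := hc j
    have k3 := h2 i (c i)
    have k4 := h2 j (c i)
    rw [← e.2] at k2
    have k5 := sep i j hij
    have k6 := e.1
    simp only [Set.mem_Icc] at k1 k2 k3 k4
    omega
  have := Fintype.card_le_of_injective _ inj
  simpa [intv] using this

lemma exists_tree : ∀ l : List (ℕ × ℕ), l ≠ [] → ∃ t : GT, t.leaves = l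
  | [], h => absurd rfl h
  | [p], _ => ⟨GT.leaf p, rfl⟩
  | p :: q :: l, _ => by
    obtain ⟨t, ht⟩ := exists_tree (q :: l) (by simp)
    exact ⟨GT.node (GT.leaf p) t, by simp [GT.leaves, ht]⟩

lemma exists_sub (m : ℕ) (hm : 1 ≤ m) : ∀ t : GT, m ≤ t.leaves.length →
    ∃ S : List (ℕ × ℕ), S.Sublist t.leaves ∧ m ≤ S.length ∧ S.length ≤ 2 * m ∧
      gridCx {p | p ∈ S} ≤ t.width
  | GT.leaf p, h => ⟨[p], List.Sublist.refl _, h, by simp; omega, by simp [GT.width]⟩
  | GT.node l r, h => by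
    by_cases c : m ≤ l.leaves.length
    · obtain ⟨S, k1, k2, k3, k4⟩ := exists_sub m hm l c
      refine ⟨S, k1.trans (List.sublist_append_left _ _), k2, k3, ?_⟩
      simp only [GT.width]
      omega
    by_cases d : m ≤ r.leaves.length
    · obtain ⟨S, k1, k2, k3, k4⟩ := exists_sub m hm r d
      refine ⟨S, k1.trans (List.sublist_append_right _ _), k2, k3, ?_⟩
      simp only [GT.width]
      omega
    refine ⟨l.leaves ++ r.leaves, List.Sublist.refl _, h, ?_, ?_⟩
    · rw [List.length_append]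
      omega
    · simp only [GT.width]
      omega

lemma exists_adj {g : ℕ} (A : Fin g → Prop) {i j : Fin g} (hi : A i) (hj : ¬ A j) :
    ∃ u v : Fin g, A u ∧ ¬ A v ∧ ((u : ℕ) = v + 1 ∨ (v : ℕ) = u + 1) := by
  by_contra hc
  push Not at hc
  have h0 : 0 < g := lt_of_le_of_lt (Nat.zero_le _) i.2
  have key : ∀ n (h : n < g), A ⟨n, h⟩ ↔ A ⟨0, h0⟩ := by
    intro n
    induction n with
    | zero => exact fun _ => Iff.rfl
    | succ n ih =>
      intro h
      rw [← ih (by omega)]
      constructor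
      · intro c
        by_contra d
        exact (hc _ _ c d).1 rfl
      · intro c
        by_contra d
        exact (hc _ _ c d).2 rfl
  exact hj ((key j j.2).2 ((key i i.2).1 hi))

lemma Lab.sep {P : Type} {s : ℕ → Bool} {Z : ℕ → P → ℤ} {l T : P → ℕ} (h : Lab s Z l T)
    (hZ : ∀ b < 2, Injective (Z b)) {b : ℕ} (hb : b < 2) (x : P → ℕ)
    (hx : ∀ u v, x u < x v ↔ Z b u < Z b v) {p q p' q' : P}
    (h1 : line b (l p) = line b (l q)) (h2 : line b (l p') = line b (l q'))
    (h3 : line b (l p) ≠ line b (l p') ∨ max (T p) (T q) < min (T p') (T q') ∨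
      max (T p') (T q') < min (T p) (T q)) :
    max (x p) (x q) < min (x p') (x q') ∨ max (x p') (x q') < min (x p) (x q) := by
  have blk : ∀ u v, line b (l u) < line b (l v) → x u < x v := fun u v c =>
    (hx u v).2 (h.blk b hb u v c)
  have dir : ∀ u v, line b (l u) = line b (l p) → line b (l v) = line b (l p) → T u < T v →
      (s (line b (l p)) = false → x u < x v) ∧ (¬ s (line b (l p)) = false → x v < x u) := by
    intro u v c d e
    have k := h.dir b hb u v (c.trans d.symm) e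
    rw [c, ← hx] at k
    refine ⟨k.2, fun k2 => ?_⟩
    have k3 : Z b u ≠ Z b v := fun k4 => by
      rw [hZ b hb k4] at e
      exact lt_irrefl _ e
    have k4 := mt k.1 k2
    rw [hx] at k4 ⊢
    omega
  have fin : ∀ a b c d : ℕ, a < c → a < d → b < c → b < d → max a b < min c d := by
    intro a b c d _ _ _ _
    omega
  rcases lt_trichotomy (line b (l p)) (line b (l p')) with c | c | c
  · exact Or.inl (fin _ _ _ _ (blk _ _ c) (blk _ _ (by omega)) (blk _ _ (by omega))
      (blk _ _ (by omega)))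
  · have e1 := h1.symm
    have e2 := c.symm
    have e3 := (c.trans h2).symm
    rcases h3.resolve_left (fun d => d c) with k | k
    · have m1 := dir p p' rfl e2 (by omega)
      have m2 := dir p q' rfl e3 (by omega)
      have m3 := dir q p' e1 e2 (by omega)
      have m4 := dir q q' e1 e3 (by omega)
      by_cases d : s (line b (l p)) = false
      · exact Or.inl (fin _ _ _ _ (m1.1 d) (m2.1 d) (m3.1 d) (m4.1 d))
      · exact Or.inr (fin _ _ _ _ (m1.2 d) (m3.2 d) (m2.2 d) (m4.2 d))
    · have m1 := dir p' p e2 rfl (by omega)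
      have m2 := dir p' q e2 e1 (by omega)
      have m3 := dir q' p e3 rfl (by omega)
      have m4 := dir q' q e3 e1 (by omega)
      by_cases d : s (line b (l p)) = false
      · exact Or.inr (fin _ _ _ _ (m1.1 d) (m2.1 d) (m3.1 d) (m4.1 d))
      · exact Or.inl (fin _ _ _ _ (m1.2 d) (m3.2 d) (m2.2 d) (m4.2 d))
  · exact Or.inr (fin _ _ _ _ (blk _ _ c) (blk _ _ (by omega)) (blk _ _ (by omega))
      (blk _ _ (by omega)))

end Pool.Agent.H761Z.PPM
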