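import Pool.Agent.NPC.Classes

/-!
# Permutation classes, grid-width and `C`-Pattern PPM
-/

set_option autoImplicit false

namespace Pool.Agent.H761Z.PPM

open Pool.Agent.NPC

/-- A permutation of length `n`: a list in which each element of `{1, …, n}` occurs once. -/
def IsPerm (π : List ℕ) : Prop := π.Perm (List.range' 1 π.length)

/-- `τ` contains `π`: some subsequence of `τ` has the same relative order as `π`. -/
def Contains (τ π : List ℕ) : Prop :=
  ∃ f : Fin π.length → Fin τ.length, StrictMono f ∧
    ∀ i j : Fin π.length, π.get i < π.get j ↔ τ.get (f i) < τ.get (f j)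

/-- A permutation class. -/
def IsClass (C : Set (List ℕ)) : Prop :=
  (∀ π ∈ C, IsPerm π) ∧ ∀ τ ∈ C, ∀ π, IsPerm π → Contains τ π → π ∈ C

/-- The least number of pairwise disjoint integer intervals whose union is `A`. -/
noncomputable def intv (A : Set ℕ) : ℕ :=
  sInf {k : ℕ | ∃ a b : Fin k → ℕ,
    Pairwise (fun i j => Disjoint (Set.Icc (a i) (b i)) (Set.Icc (a j) (b j))) ∧
      ⋃ i, Set.Icc (a i) (b i) = A}

/-- The grid-complexity of a set of points. -/
noncomputable def gridCx (S : Set (ℕ × ℕ)) : ℕ := max (intv (Prod.fst '' S)) (intv (Prod.snd '' S))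

/-- Rooted binary trees whose leaves are labelled by points. -/
inductive GT : Type
  | leaf (p : ℕ × ℕ) : GT
  | node (l r : GT) : GT

/-- The labels of the leaves. -/
def GT.leaves : GT → List (ℕ × ℕ)
  | GT.leaf p => [p]
  | GT.node l r => l.leaves ++ r.leaves

/-- The width of a tree: the maximum over its vertices of the grid-complexity of the set of labels
of the leaves below the vertex. -/
noncomputable def GT.width : GT → ℕ
  | GT.leaf p => gridCx {p}
  | GT.node l r => max (gridCx {p | p ∈ l.leaves ++ r.leaves}) (max l.width r.width)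

/-- The points `(i, π_i)`, `1 ≤ i ≤ n`, of the diagram of `π`. -/
def diagram (π : List ℕ) : List (ℕ × ℕ) := List.ofFn fun i : Fin π.length => (i + 1, π.get i)

/-- The grid-width: the least width of a tree whose leaves are labelled bijectively by the points
of the diagram. -/
noncomputable def gw (π : List ℕ) : ℕ :=
  sInf {w : ℕ | ∃ t : GT, t.leaves.Perm (diagram π) ∧ t.width = w}

/-- The class `C` has bounded grid-width. -/
def BoundedGW (C : Set (List ℕ)) : Prop := ∃ w : ℕ, ∀ π ∈ C, gw π ≤ w

/-- Instances of `C`-Pattern PPM: a pattern in `C` and an arbitrary permutation as text. -/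
def Valid (C : Set (List ℕ)) (a : List ℕ × List ℕ) : Prop := a.1 ∈ C ∧ IsPerm a.2

/-- `C`-Pattern PPM is solvable in polynomial time: a polynomial-time machine answers correctly on
all instances. -/
def PPMInP (C : Set (List ℕ)) : Prop :=
  ∃ L, InP L ∧ ∀ a, Valid C a → (bits a ∈ L ↔ Contains a.2 a.1)

/-- `C`-Pattern PPM is in `NP`: a language of `NP` agrees with it on all instances. -/
def PPMInNP (C : Set (List ℕ)) : Prop :=
  ∃ L, InNP L ∧ ∀ a, Valid C a → (bits a ∈ L ↔ Contains a.2 a.1)

/-- `C`-Pattern PPM is `NP`-hard: every language of `NP` has a polynomial-time many-one reduction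
to it, all of whose values are instances. -/
def PPMHard (C : Set (List ℕ)) : Prop :=
  ∀ L, InNP L → ∃ f, PolyTime f ∧ ∀ x, ∃ a, Valid C a ∧ f x = bits a ∧ (x ∈ L ↔ Contains a.2 a.1)

end Pool.Agent.H761Z.PPM
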