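import Pool.Agent.H761Z.PPM.Unb
import Pool.Agent.H550R2.Iso.Raw

set_option autoImplicit false

namespace Pool.Agent.H761Z.PPM

open Pool.Agent.NPC Function

/-- the sign sequence of slope `α` -/
noncomputable def sturm (α : ℝ) (k : ℕ) : Bool := decide (⌊(k : ℝ) * α⌋ % 2 = 1)

lemma floor_step {α : ℝ} (h : α ∈ Set.Ico (0 : ℝ) 1) (k : ℕ) :
    ⌊(k : ℝ) * α⌋ ≤ ⌊((k + 1 : ℕ) : ℝ) * α⌋ ∧ ⌊((k + 1 : ℕ) : ℝ) * α⌋ ≤ ⌊(k : ℝ) * α⌋ + 1 := by
  obtain ⟨h0, h1⟩ := h
  constructor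
  · refine Int.floor_le_floor ?_
    push_cast
    linarith
  · rw [← Int.floor_add_one]
    refine Int.floor_le_floor ?_
    push_cast
    linarith

lemma sturm_far {α β : ℝ} (ha : α ∈ Set.Ico (0 : ℝ) 1) (hb : β ∈ Set.Ico (0 : ℝ) 1)
    (hne : α ≠ β) : ∃ L : ℕ, ∀ i j, ∃ u < L,
      ¬ (sturm α (i + u) = sturm α (i + u + 1) ↔ sturm β (j + u) = sturm β (j + u + 1)) := by
  have hpos : 0 < |α - β| := abs_pos.2 (sub_ne_zero.2 hne)
  obtain ⟨L, hL⟩ := exists_nat_ge (2 / |α - β|)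
  refine ⟨L, fun i j => ?_⟩
  by_contra hc
  push Not at hc
  have key : ∀ u ≤ L, ⌊((i + u : ℕ) : ℝ) * α⌋ - ⌊(i : ℝ) * α⌋ =
      ⌊((j + u : ℕ) : ℝ) * β⌋ - ⌊(j : ℝ) * β⌋ := by
    intro u
    induction u with
    | zero => simp
    | succ u ih =>
      intro hu
      have k1 := ih (by omega)
      have k2 := hc u (by omega)
      have k3 := floor_step ha (i + u)
      have k4 := floor_step hb (j + u)
      simp only [sturm, decide_eq_decide] at k2
      rw [← Nat.add_assoc, ← Nat.add_assoc]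
      generalize ⌊((i + u + 1 : ℕ) : ℝ) * α⌋ = a1 at *
      generalize ⌊((j + u + 1 : ℕ) : ℝ) * β⌋ = b1 at *
      generalize ⌊((i + u : ℕ) : ℝ) * α⌋ = a0 at *
      generalize ⌊((j + u : ℕ) : ℝ) * β⌋ = b0 at *
      have e1 : ((a0 % 2 = 1) ↔ (a1 % 2 = 1)) ↔ a1 = a0 := by omega
      have e2 : ((b0 % 2 = 1) ↔ (b1 % 2 = 1)) ↔ b1 = b0 := by omega
      rw [e1, e2] at k2
      omega
  have k := key L le_rfl
  have k' : ((⌊((i + L : ℕ) : ℝ) * α⌋ : ℤ) : ℝ) - ((⌊(i : ℝ) * α⌋ : ℤ) : ℝ) =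
      ((⌊((j + L : ℕ) : ℝ) * β⌋ : ℤ) : ℝ) - ((⌊(j : ℝ) * β⌋ : ℤ) : ℝ) := by exact_mod_cast k
  have a1 := Int.floor_le (((i + L : ℕ) : ℝ) * α)
  have a2 := Int.lt_floor_add_one (((i + L : ℕ) : ℝ) * α)
  have a3 := Int.floor_le ((i : ℝ) * α)
  have a4 := Int.lt_floor_add_one ((i : ℝ) * α)
  have b1 := Int.floor_le (((j + L : ℕ) : ℝ) * β)
  have b2 := Int.lt_floor_add_one (((j + L : ℕ) : ℝ) * β)
  have b3 := Int.floor_le ((j : ℝ) * β)
  have b4 := Int.lt_floor_add_one ((j : ℝ) * β)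
  have e1 : ((i + L : ℕ) : ℝ) * α = i * α + L * α := by push_cast; ring
  have e2 : ((j + L : ℕ) : ℝ) * β = j * β + L * β := by push_cast; ring
  have h2 : 2 ≤ (L : ℝ) * |α - β| := (div_le_iff₀ hpos).1 hL
  have h3 : |(L : ℝ) * (α - β)| < 2 := by
    rw [abs_lt]
    constructor <;> linarith
  rw [abs_mul, Nat.abs_cast] at h3
  linarith

theorem collapse (H : ∀ C, IsClass C → ¬ BoundedGW C → PPMHard C) (L : Set (List Bool))
    (hL : InNP L) : InP L := by
  have h1 := fun α : ℝ => H _ (DC_isClass (sturm α)) (DC_unbounded _) L hL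
  choose f hf hf2 using h1
  have h2 : ¬ Set.InjOn f (Set.Ico (0 : ℝ) 1) := by
    intro c
    have := Set.MapsTo.countable_of_injOn (t := {f | PolyTime f}) (fun α _ => hf α) c
      PIso.countable_polyTime
    rw [Cardinal.Real.Ico_countable_iff] at this
    linarith
  unfold Set.InjOn at h2
  push Not at h2
  obtain ⟨α, ha, β, hb, e, hne⟩ := h2
  obtain ⟨N, hN⟩ := sturm_far ha hb hne
  refine InP.of_reduces (L' := lang fun a : Inst => alg (4 * (8 * (2 * N + 5))) a = true)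
    ⟨f α, hf α, fun x => ?_⟩ (inPP_of (poly_alg _) fun _ => Iff.rfl)
  obtain ⟨a, ⟨⟨hp, l, T, k1⟩, -⟩, k2, k3⟩ := hf2 α x
  obtain ⟨a', ⟨⟨-, l', T', k1'⟩, -⟩, k2', -⟩ := hf2 β x
  have : a' = a := bits_injective (by rw [← k2, ← k2', e])
  subst this
  rw [k3, k2, bits_mem_lang]
  exact ⟨alg_of_contains _ _, contains_of_alg _ _ hp
    (wd_of_two k1 k1' (fun b _ => Zp_inj hp b) N hN)⟩

/-- the certificate test -/
def cert (p : Inst × List ℕ) : Bool :=
  (rg1 p.1).all fun i => decide (p.2.getD i 0 ∈ rg2 p.1) &&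
    (rg1 p.1).all fun j => rel p.1 (i, p.2.getD i 0) (j, p.2.getD j 0)

lemma poly_cert : Poly cert := by
  unfold cert
  have h1 := poly_rg1
  have h2 := poly_rg2
  refine Poly.all (h1.comp (by fun_prop)) (Poly.and (by fun_prop)
    (Poly.all (h1.comp (by fun_prop)) ?_))
  exact poly_rel.comp (f := fun q : ((Inst × List ℕ) × ℕ) × ℕ =>
    (q.1.1.1, (q.1.2, q.1.1.2.getD q.1.2 0), (q.2, q.1.1.2.getD q.2 0))) (by fun_prop)

theorem ppm_inNP : InNP (lang fun a : Inst => Contains a.2 a.1) := by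
  refine inNPP_of poly_cert (Polynomial.X * (4 * Polynomial.X + 2) + 1) fun a => ?_
  simp only [cert, List.all_eq_true, Bool.and_eq_true, decide_eq_true_eq, rg1, rg2,
    List.mem_range, rel_iff]
  constructor
  · rintro ⟨f, hf, hf2⟩
    have g : ∀ i : Fin a.1.length, (List.ofFn fun i => (f i : ℕ)).getD i 0 = f i := by
      intro i
      simp
    refine ⟨List.ofFn fun i => (f i : ℕ), ?_, fun i hi => ⟨?_, fun j hj => ?_⟩⟩
    · have s0 : sz a = sz a.1 + sz a.2 + 1 := sz_pair a.1 a.2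
      have s1 := length_lt_sz a.1
      have s2 := length_lt_sz a.2
      refine (sz_le_length_mul _ (4 * sz a + 1) fun n hn => ?_).trans ?_
      · obtain ⟨i, rfl⟩ := List.mem_ofFn.1 hn
        have k1 := sz_nat_le (f i : ℕ)
        have k2 : (f i : ℕ).size ≤ f i := Nat.size_le.2 Nat.lt_two_pow_self
        have k3 := (f i).2
        omega
      · simp only [List.length_ofFn, Polynomial.eval_add, Polynomial.eval_mul, Polynomial.eval_X,
          Polynomial.eval_ofNat, Polynomial.eval_one]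
        exact Nat.add_le_add_right (Nat.mul_le_mul (by omega) le_rfl) _
    · have := g ⟨i, hi⟩
      simp only at this
      rw [this]
      exact (f _).2
    · have k1 := g ⟨i, hi⟩
      have k2 := g ⟨j, hj⟩
      have k3 := getD_get a.1 ⟨i, hi⟩
      have k4 := getD_get a.1 ⟨j, hj⟩
      simp only at k1 k2 k3 k4
      rw [k1, k2, k3, k4, getD_get, getD_get]
      exact ⟨(hf.lt_iff_lt (a := ⟨i, hi⟩) (b := ⟨j, hj⟩)).symm, hf2 _ _⟩
  · rintro ⟨w, -, h⟩
    refine ⟨fun i => ⟨w.getD i 0, (h i i.2).1⟩, fun i j c => ((h i i.2).2 j j.2).1.1 c,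
      fun i j => ?_⟩
    rw [← getD_get, ← getD_get, ← getD_get, ← getD_get]
    exact ((h i i.2).2 j j.2).2

theorem hard_of_collapse (H : ∀ L, InNP L → InP L) {C : Set (List ℕ)} (hC : IsClass C)
    (hb : ¬ BoundedGW C) : PPMHard C := by
  have : ∃ π ∈ C, π ≠ [] := by
    by_contra c
    push Not at c
    exact hb ⟨gw [], fun π hπ => by rw [c π hπ]⟩
  obtain ⟨π, hπ, hne⟩ := this
  intro L hL
  obtain ⟨V, hV, hV2⟩ := H L hL
  have hG : Poly (fun y : List Bool => if y = [true] then ((π, π) : Inst) else (π, [])) := by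
    fun_prop
  refine ⟨_, H642R2.TMSim.polyTime_comp (polyTime_bits hG) hV, fun x => ⟨_, ?_, rfl, ?_⟩⟩
  · split_ifs
    · exact ⟨hπ, hC.1 π hπ⟩
    · exact ⟨hπ, List.Perm.refl _⟩
  · rw [hV2]
    split_ifs with c
    · exact iff_of_true c ⟨id, strictMono_id, fun _ _ => Iff.rfl⟩
    · refine iff_of_false c ?_
      rintro ⟨f, -⟩
      exact (f ⟨0, List.length_pos_iff.2 hne⟩).elim0

theorem main : (∀ C, IsClass C → (¬ BoundedGW C → PPMInNP C ∧ PPMHard C) ∧
    (BoundedGW C → PPMInP C)) ↔ ∀ L, InNP L → InP L := by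
  constructor
  · exact fun H => collapse fun C hC hb => ((H C hC).1 hb).2
  · intro H C hC
    exact ⟨fun hb => ⟨⟨_, ppm_inNP, fun a _ => bits_mem_lang⟩, hard_of_collapse H hC hb⟩,
      fun _ => ⟨_, H _ ppm_inNP, fun a _ => bits_mem_lang⟩⟩

end Pool.Agent.H761Z.PPM
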