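import Pool.Agent.H761Z.PPM.Cls

set_option autoImplicit false

namespace Pool.Agent.H761Z.PPM

open Function

lemma Lab.two_par {P ι : Type} [Fintype ι] {s : ℕ → Bool} {Z : ℕ → P → ℤ} {l T : P → ℕ}
    (h : Lab s Z l T) (hZ : ∀ b < 2, Injective (Z b)) (x : ℕ → P → ℕ)
    (hx : ∀ b < 2, ∀ u v, x b u < x b v ↔ Z b u < Z b v) (A : Finset P) (w : ℕ)
    (hw : ∀ b < 2, intv (x b '' A) ≤ w) (β : ι → ℕ) (hβ : ∀ i, β i < 2) (p q : ι → P)
    (hp : ∀ i, p i ∈ A) (hq : ∀ i, q i ∉ A)
    (hl : ∀ i, line (β i) (l (p i)) = line (β i) (l (q i)))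
    (hs : ∀ i j, i ≠ j → β i = β j → line (β i) (l (p i)) ≠ line (β i) (l (p j)) ∨
      max (T (p i)) (T (q i)) < min (T (p j)) (T (q j)) ∨
      max (T (p j)) (T (q j)) < min (T (p i)) (T (q i))) : Fintype.card ι ≤ 4 * w := by
  classical
  have xi : ∀ b < 2, Injective (x b) := by
    intro b hb u v e
    have k1 := hx b hb u v
    have k2 := hx b hb v u
    refine hZ b hb ?_
    rw [e] at k1 k2
    have k3 := mt k1.2 (lt_irrefl _)
    have k4 := mt k2.2 (lt_irrefl _)
    omega
  have key : ∀ b < 2, Fintype.card {i // β i = b} ≤ 2 * w := by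
    intro b hb
    refine (card_le_intv (x b '' A) (A.finite_toSet.image _) (fun i => x b (p i.1))
      (fun i => x b (q i.1)) (fun i => ⟨_, hp i.1, rfl⟩) (fun i => ?_) (fun i j hij => ?_)).trans
      (Nat.mul_le_mul_left _ (hw b hb))
    · rintro ⟨u, hu, e⟩
      exact hq i.1 (xi b hb e ▸ hu)
    · obtain ⟨i, rfl⟩ := i
      obtain ⟨j, hj⟩ := j
      refine h.sep hZ hb (x _) (hx _ hb) (hl i) (by have := hl j; rwa [hj] at this)
        (hs i j (fun c => hij ?_) hj.symm)
      subst c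
      rfl
  have k0 := key 0 (by norm_num)
  have k1 := key 1 (by norm_num)
  have k2 := Fintype.card_subtype_compl (fun i => β i = 0)
  have k3 : Fintype.card {i // ¬ β i = 0} = Fintype.card {i // β i = 1} :=
    Fintype.card_congr (Equiv.subtypeEquivRight fun i => by have := hβ i; omega)
  omega

/-- time stamps of the grid points -/
def gT (g : ℕ) (p : Fin g × Fin g) : ℕ := g * p.2 + p.1

/-- coordinates of the grid points -/
def gZ (s : ℕ → Bool) (g : ℕ) (b : ℕ) (p : Fin g × Fin g) : ℤ :=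
  2 * (g * g : ℕ) * (line b p.1 : ℕ) + if s (line b p.1) = false then (gT g p : ℤ) else -gT g p

lemma gT_lt (g : ℕ) {p q : Fin g × Fin g} (h : (p.2 : ℕ) < q.2) : gT g p < gT g q := by
  have h1 : g * (p.2 + 1) ≤ g * q.2 := Nat.mul_le_mul_left _ h
  have h2 := p.1.2
  unfold gT
  rw [Nat.mul_add] at h1
  omega

lemma gT_bd (g : ℕ) (p : Fin g × Fin g) : gT g p < g * g := by
  have h1 : g * (p.2 + 1) ≤ g * g := Nat.mul_le_mul_left _ p.2.2
  have h2 := p.1.2
  unfold gT
  rw [Nat.mul_add] at h1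
  omega

lemma gT_inj (g : ℕ) : Injective (gT g) := by
  intro p q e
  have h1 := mt (gT_lt g (p := p) (q := q)) (by omega)
  have h2 := mt (gT_lt g (p := q) (q := p)) (by omega)
  have h3 : (p.2 : ℕ) = q.2 := by omega
  unfold gT at e
  rw [h3] at e
  exact Prod.ext (Fin.ext (by omega)) (Fin.ext h3)

lemma gLab (s : ℕ → Bool) (g : ℕ) : Lab s (gZ s g) (fun p => p.1) (gT g) where
  injT := gT_inj g
  blk := by
    intro b _ p q c
    have h1 : (2 * (g * g : ℕ) : ℤ) * ((line b p.1 : ℕ) + 1) ≤ 2 * (g * g : ℕ) * (line b q.1 : ℕ) :=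
      mul_le_mul_of_nonneg_left (by exact_mod_cast c) (by positivity)
    have h2 : (gT g p : ℤ) < (g * g : ℕ) := by exact_mod_cast gT_bd g p
    have h3 : (gT g q : ℤ) < (g * g : ℕ) := by exact_mod_cast gT_bd g q
    have h4 : (0 : ℤ) ≤ gT g p := by positivity
    have h5 : (0 : ℤ) ≤ gT g q := by positivity
    unfold gZ
    split_ifs <;> linarith
  dir := by
    intro b _ p q c d
    unfold gZ
    rw [← c]
    split_ifs with k
    · simp only [k, iff_true]
      omega
    · exact iff_of_false (by omega) k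

lemma gZ_inj (s : ℕ → Bool) (g : ℕ) : ∀ b < 2, Injective (gZ s g b) := by
  intro b hb p q e
  have h1 := mt ((gLab s g).blk b hb p q) (by omega)
  have h2 := mt ((gLab s g).blk b hb q p) (by omega)
  have h3 : line b p.1 = line b q.1 := by omega
  unfold gZ at e
  rw [h3] at e
  refine gT_inj g ?_
  split_ifs at e <;> omega

lemma grid_bound (s : ℕ → Bool) (r w : ℕ) (x : ℕ → Fin (3 * r) × Fin (3 * r) → ℕ)
    (hx : ∀ b < 2, ∀ u v, x b u < x b v ↔ gZ s _ b u < gZ s _ b v)
    (A : Finset (Fin (3 * r) × Fin (3 * r))) (h1 : 3 * r * r ≤ A.card) (h2 : A.card ≤ 6 * r * r)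
    (hw : ∀ b < 2, intv (x b '' A) ≤ w) : r ≤ 4 * w := by
  classical
  by_contra hr
  let Mix : Finset (Fin (3 * r)) := Finset.univ.filter fun t => ∃ i j, (i, t) ∈ A ∧ (j, t) ∉ A
  have hM : Mix.card ≤ 4 * w := by
    have : ∀ t : Mix, ∃ u v : Fin (3 * r), (u, t.1) ∈ A ∧ (v, t.1) ∉ A ∧
        ((u : ℕ) = v + 1 ∨ (v : ℕ) = u + 1) := by
      intro t
      obtain ⟨i, j, hi, hj⟩ := (Finset.mem_filter.1 t.2).2
      exact exists_adj (fun i => (i, t.1) ∈ A) hi hj
    choose u v hu hv huv using this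
    rw [← Fintype.card_coe]
    refine (gLab s _).two_par (gZ_inj s _) x hx A w hw (fun t => max (u t : ℕ) (v t) % 2)
      (fun t => Nat.mod_lt _ (by norm_num)) (fun t => (u t, t.1)) (fun t => (v t, t.1)) hu hv
      (fun t => ?_) (fun i j hij _ => Or.inr ?_)
    · have := huv t
      simp only [line]
      omega
    · have k : (i.1 : ℕ) ≠ j.1 := fun c => hij (Subtype.ext (Fin.ext c))
      simp only [max_lt_iff, lt_min_iff]
      rcases lt_or_gt_of_ne k with c | c
      · exact Or.inl ⟨⟨gT_lt _ c, gT_lt _ c⟩, gT_lt _ c, gT_lt _ c⟩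
      · exact Or.inr ⟨⟨gT_lt _ c, gT_lt _ c⟩, gT_lt _ c, gT_lt _ c⟩
  have hc : (Finset.univ ×ˢ Mix : Finset (Fin (3 * r) × Fin (3 * r))).card < 3 * r * r := by
    rw [Finset.card_product, Finset.card_univ, Fintype.card_fin]
    exact Nat.mul_lt_mul_of_pos_left (by omega) (by omega)
  have hin : ∃ t, ∀ i, (i, t) ∈ A := by
    by_contra c
    push Not at c
    have : A ⊆ Finset.univ ×ˢ Mix := by
      intro p hp
      obtain ⟨j, hj⟩ := c p.2
      exact Finset.mem_product.2 ⟨Finset.mem_univ _, Finset.mem_filter.2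
        ⟨Finset.mem_univ _, p.1, j, hp, hj⟩⟩
    have := Finset.card_le_card this
    omega
  have hout : ∃ t, ∀ i, (i, t) ∉ A := by
    by_contra c
    push Not at c
    have : Aᶜ ⊆ Finset.univ ×ˢ Mix := by
      intro p hp
      obtain ⟨j, hj⟩ := c p.2
      exact Finset.mem_product.2 ⟨Finset.mem_univ _, Finset.mem_filter.2
        ⟨Finset.mem_univ _, j, p.1, hj, Finset.mem_compl.1 hp⟩⟩
    have k1 := Finset.card_le_card this
    rw [Finset.card_compl, Fintype.card_prod, Fintype.card_fin] at k1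
    have k2 : 3 * r * (3 * r) = 3 * r * r + 6 * r * r := by ring
    omega
  obtain ⟨t1, ht1⟩ := hin
  obtain ⟨t2, ht2⟩ := hout
  have := (gLab s _).two_par (gZ_inj s _) x hx A w hw (fun i : Fin (3 * r) => (i : ℕ) % 2)
    (fun t => Nat.mod_lt _ (by norm_num)) (fun i => (i, t1)) (fun i => (i, t2)) ht1 ht2
    (fun t => rfl) (fun i j hij c => Or.inl (by
      have k : (i : ℕ) ≠ j := fun c => hij (Fin.ext c)
      simp only [line] at c ⊢
      omega))
  rw [Fintype.card_fin] at this
  omega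

theorem DC_unbounded (s : ℕ → Bool) : ¬ BoundedGW (DC s) := by
  classical
  rintro ⟨w, hw⟩
  obtain ⟨π, hπ, e, he⟩ := exists_std (gZ s (3 * (4 * w + 1))) (gZ_inj s _)
  have hgw := hw π ⟨hπ, _, _, (gLab s _).pull e e.injective (Zp π) he⟩
  have hlen : π.length = 3 * (4 * w + 1) * (3 * (4 * w + 1)) := by
    have := Fintype.card_congr e
    simpa using this
  have hpos : 1 ≤ 3 * (4 * w + 1) * (4 * w + 1) := Nat.mul_pos (by omega) (by omega)
  have hle : 3 * (4 * w + 1) * (4 * w + 1) ≤ π.length := by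
    rw [hlen]
    exact Nat.mul_le_mul_left _ (by omega)
  have hdl : (diagram π).length = π.length := by simp [diagram]
  have hne : {w : ℕ | ∃ t : GT, t.leaves.Perm (diagram π) ∧ t.width = w}.Nonempty := by
    obtain ⟨t, ht⟩ := exists_tree (diagram π) (List.ne_nil_of_length_pos (by omega))
    exact ⟨_, t, List.Perm.of_eq ht, rfl⟩
  obtain ⟨t, ht, ht2⟩ := Nat.sInf_mem hne
  obtain ⟨S, k1, k2, k3, k4⟩ := exists_sub _ hpos t (by rw [ht.length_eq]; omega)
  let φ : Fin π.length → ℕ × ℕ := fun i => (i + 1, π.get i)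
  have hφ : Injective φ := fun i j c => Fin.ext (by simpa [φ] using (Prod.ext_iff.1 c).1)
  have nd : S.Nodup := k1.nodup (ht.nodup_iff.2 (List.nodup_ofFn.2 hφ))
  let A : Finset (Fin (3 * (4 * w + 1)) × Fin (3 * (4 * w + 1))) :=
    Finset.univ.filter fun p => φ (e.symm p) ∈ S
  have hA : ∀ y, y ∈ S ↔ ∃ p ∈ A, φ (e.symm p) = y := by
    intro y
    constructor
    · intro hy
      obtain ⟨i, hi⟩ := List.mem_ofFn.1 (ht.subset (k1.subset hy))
      refine ⟨e i, Finset.mem_filter.2 ⟨Finset.mem_univ _, ?_⟩, ?_⟩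
      · rw [e.symm_apply_apply]
        have k : φ i = y := hi
        rwa [k]
      · rw [e.symm_apply_apply]
        exact hi
    · rintro ⟨p, hp, rfl⟩
      exact (Finset.mem_filter.1 hp).2
  have hcard : A.card = S.length := by
    rw [← List.toFinset_card_of_nodup nd,
      ← Finset.card_image_of_injective A (hφ.comp e.symm.injective)]
    congr 1
    ext y
    simp only [Finset.mem_image, List.mem_toFinset, hA]
    rfl
  have hw2 : gridCx {p | p ∈ S} ≤ w := k4.trans (ht2.le.trans hgw)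
  have := grid_bound s (4 * w + 1) w
    (fun b p => if b = 0 then (φ (e.symm p)).1 else (φ (e.symm p)).2) (fun b hb u v => by
      have k := he b hb (e.symm u) (e.symm v)
      simp only [Equiv.apply_symm_apply] at k
      rw [← k]
      unfold Zp
      split_ifs <;> simp [φ]) A (by omega) (by rw [hcard]; linarith) (fun b hb => by
      unfold gridCx at hw2
      split_ifs
      · refine le_trans (le_of_eq ?_) ((le_max_left _ _).trans hw2)
        congr 1
        ext y
        simp only [Set.mem_image, Set.mem_ofPred_eq, hA, Finset.mem_coe]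
        constructor
        · rintro ⟨p, hp, rfl⟩
          exact ⟨_, ⟨p, hp, rfl⟩, rfl⟩
        · rintro ⟨_, ⟨p, hp, rfl⟩, rfl⟩
          exact ⟨p, hp, rfl⟩
      · refine le_trans (le_of_eq ?_) ((le_max_right _ _).trans hw2)
        congr 1
        ext y
        simp only [Set.mem_image, Set.mem_ofPred_eq, hA, Finset.mem_coe]
        constructor
        · rintro ⟨p, hp, rfl⟩
          exact ⟨_, ⟨p, hp, rfl⟩, rfl⟩
        · rintro ⟨_, ⟨p, hp, rfl⟩, rfl⟩
          exact ⟨p, hp, rfl⟩)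
  omega

end Pool.Agent.H761Z.PPM
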